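import Pool.Agent.Helper6.EA.Defs

/-!
# The exact border for all arities, block EA3: covers for tuples with few candidates
-/

set_option autoImplicit false

namespace Pool.Agent.Helper6.EA

open FirstOrder Pool.Agent.Helper20.Spectra Pool.Agent.Helper31.QD Pool.Agent.Helper38.MC
  Pool.Agent.Helper58.QD Pool.Agent.Helper40.MC Pool.Agent.Helper6.MC
open Pool.Agent.Helper12.EK (Gr Ball Cmp)

/-- EA1 -/
def StmtHitS : Prop := ∀ (V : Type) [Fintype V] [DecidableEq V] (q r l B : ℕ), 1 ≤ q →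
    ∀ (F : V → Finset (Fin l → Finset V)), (∀ x, (F x).card ≤ B) →
    (∀ x, ∀ e ∈ F x, ∀ i j, i ≠ j → Disjoint (e i) (e j)) → (∀ x, ∀ e ∈ F x, ∀ i, (e i).card ≤ r) →
    B * q * (q ^ r - 1) ^ l ≤ (q ^ r) ^ l →
    ∃ P : Finset V, q * P.card ≤ 2 * Fintype.card V ∧ ∀ x ∉ P, ∀ e ∈ F x, ∃ i, e i ⊆ P

/-- EA2 -/
def StmtTree : Prop := ∀ (V : Type) [Fintype V] [DecidableEq V] (F : Finset V → Prop) (r l : ℕ),
    (∀ e, F e → e.card ≤ r) →
    ∃ T : Finset (Fin l → Finset V), T.card ≤ (r * l + 1) ^ r ∧ (∀ e ∈ T, ∀ i j, i ≠ j → Disjoint (e i) (e j)) ∧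
      (∀ e ∈ T, ∀ i, (e i).card ≤ r) ∧
      ∀ A : Finset V, (∀ e, F e → ¬ e ⊆ A) → (∀ e ∈ T, ∃ i, e i ⊆ A) →
        ∃ C : Finset V, (∀ w ∈ C, w ∉ A) ∧ C.card ≤ (r * l + 1) ^ r ∧ ∀ e, F e → ∃ w ∈ e, w ∈ C

variable {S : Type} {ar : S → ℕ} {V : Type} [Fintype V]

/-- EA3 over EA1 and EA2 -/
theorem exists_cov_of (h1 : StmtHitS) (h2 : StmtTree) {r : ℕ} (har : ∀ s, ar s ≤ r) (R : Interp S ar V)
    {A₀ : Finset V} {s B l q : ℕ} (hq : 1 ≤ q)
    (hs : ∀ x, (oA R A₀ x).card ≤ s) (U : (Fin (r + 1) → V) → Prop)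
    (hU : ∀ h ∈ GA R A₀, ∀ u, U u → U (h ∘ u)) (hB : ∀ x, Nat.card {u : Fin (r + 1) → V // U u ∧ u 0 = x} ≤ B)
    (hl : s * B ^ 2 * (r * l + 1) ^ r * q * (q ^ r - 1) ^ l ≤ (q ^ r) ^ l) :
    ∃ A, A₀ ⊆ A ∧ q * A.card ≤ q * A₀.card + 2 * Fintype.card V ∧ Cov R A U (cL r l) := by
  classical
  -- the trees of the pairs
  have hT := fun (u u' : Fin (r + 1) → V) => h2 V (fun e => ∃ s p, Dis R u u' s p ∧ out p = e) r l (by
    rintro e ⟨s, p, -, rfl⟩
    exact (card_out p).trans (har s))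
  choose T hT1 hT2 hT3 hT4 using hT
  -- the tuples with a given first element
  let Ux : V → Finset (Fin (r + 1) → V) := fun x => Finset.univ.filter fun u => U u ∧ u 0 = x
  have hUx : ∀ x, (Ux x).card ≤ B := by
    intro x
    refine le_trans (le_of_eq ?_) (hB x)
    rw [Nat.card_eq_fintype_card, Fintype.card_subtype]
  let F : V → Finset (Fin l → Finset V) := fun x =>
    (Ux x).biUnion fun u => (oA R A₀ x).biUnion fun y => (Ux y).biUnion fun u' => T u u'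
  have hF : ∀ x, (F x).card ≤ s * B ^ 2 * (r * l + 1) ^ r := by
    intro x
    have e1 : ∀ u y, ((Ux y).biUnion fun u' => T u u').card ≤ B * (r * l + 1) ^ r := by
      intro u y
      refine Finset.card_biUnion_le.trans ((Finset.sum_le_card_nsmul _ _ _ fun u' _ => hT1 u u').trans ?_)
      rw [smul_eq_mul]
      exact Nat.mul_le_mul_right _ (hUx y)
    have e2 : ∀ u, ((oA R A₀ x).biUnion fun y => (Ux y).biUnion fun u' => T u u').card ≤
        s * (B * (r * l + 1) ^ r) := by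
      intro u
      refine Finset.card_biUnion_le.trans ((Finset.sum_le_card_nsmul _ _ _ fun y _ => e1 u y).trans ?_)
      rw [smul_eq_mul]
      exact Nat.mul_le_mul_right _ (hs x)
    refine Finset.card_biUnion_le.trans ((Finset.sum_le_card_nsmul _ _ _ fun u _ => e2 u).trans ?_)
    rw [smul_eq_mul]
    refine (Nat.mul_le_mul_right _ (hUx x)).trans (le_of_eq ?_)
    ring
  have hmem : ∀ x, ∀ e ∈ F x, ∃ u u', e ∈ T u u' := by
    intro x e he
    obtain ⟨u, -, he⟩ := Finset.mem_biUnion.1 he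
    obtain ⟨y, -, he⟩ := Finset.mem_biUnion.1 he
    obtain ⟨u', -, he⟩ := Finset.mem_biUnion.1 he
    exact ⟨u, u', he⟩
  obtain ⟨P, hP1, hP2⟩ := h1 V q r l (s * B ^ 2 * (r * l + 1) ^ r) hq F hF
    (fun x e he => by
      obtain ⟨u, u', h⟩ := hmem x e he
      exact hT2 u u' e h)
    (fun x e he => by
      obtain ⟨u, u', h⟩ := hmem x e he
      exact hT3 u u' e h) hl
  refine ⟨A₀ ∪ P, Finset.subset_union_left, ?_, ?_⟩
  · have := Nat.mul_le_mul_left q (Finset.card_union_le A₀ P)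
    rw [Nat.mul_add] at this
    omega
  intro A' hA' h hh u hu hu0
  have hh' := mem_GS.1 hh
  have hhA : h ∈ GA R A₀ := mem_GS.2 ⟨hh'.1, fun x hx => hh'.2 x (hA' (Finset.mem_union_left _ hx))⟩
  have hPA : P ⊆ A' := fun x hx => hA' (Finset.mem_union_right _ hx)
  obtain ⟨C, hC1, hC2, hC3⟩ := hT4 u (h ∘ u) A' (by
    rintro e ⟨s, p, hd, rfl⟩ hsub
    exact no_dis hh'.1 (fun w hw => hh'.2 w (hsub hw)) hd) (by
    intro e he
    obtain ⟨i, hi⟩ := hP2 (u 0) (fun h0 => hu0 (hPA h0)) e (by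
      refine Finset.mem_biUnion.2 ⟨u, Finset.mem_filter.2 ⟨Finset.mem_univ _, hu, rfl⟩, ?_⟩
      refine Finset.mem_biUnion.2 ⟨h (u 0), mem_orb'.2 ⟨h, hhA, rfl⟩, ?_⟩
      exact Finset.mem_biUnion.2 ⟨h ∘ u, Finset.mem_filter.2 ⟨Finset.mem_univ _, hU h hhA u hu, rfl⟩, he⟩)
    exact ⟨i, hi.trans hPA⟩)
  refine ⟨C, hC1, hC2, fun s p hd => ?_⟩
  exact hC3 (out p) ⟨s, p, hd, rfl⟩

end Pool.Agent.Helper6.EA
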