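import Pool.Agent.Helper31.EA.Cov
import Pool.Agent.Helper58.EA.HitS
import Pool.Agent.Helper38.EA.Tree

/-!
# The exact border for all arities, block EA3 without hypotheses
-/

set_option autoImplicit false

namespace Pool.Agent.Helper6.EA

open FirstOrder Pool.Agent.Helper20.Spectra Pool.Agent.Helper31.QD Pool.Agent.Helper38.MC
  Pool.Agent.Helper58.QD Pool.Agent.Helper40.MC Pool.Agent.Helper6.MC
open Pool.Agent.Helper12.EK (Gr Ball Cmp)

variable {S : Type} {ar : S → ℕ} {V : Type} [Fintype V]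

/-- EA3 -/
theorem exists_cov {r : ℕ} (har : ∀ s, ar s ≤ r) (R : Interp S ar V) {A₀ : Finset V} {s B l q : ℕ} (hq : 1 ≤ q)
    (hs : ∀ x, (oA R A₀ x).card ≤ s) (U : (Fin (r + 1) → V) → Prop)
    (hU : ∀ h ∈ GA R A₀, ∀ u, U u → U (h ∘ u)) (hB : ∀ x, Nat.card {u : Fin (r + 1) → V // U u ∧ u 0 = x} ≤ B)
    (hl : s * B ^ 2 * (r * l + 1) ^ r * q * (q ^ r - 1) ^ l ≤ (q ^ r) ^ l) :
    ∃ A, A₀ ⊆ A ∧ q * A.card ≤ q * A₀.card + 2 * Fintype.card V ∧ Cov R A U (cL r l) :=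
  exists_cov_of (fun _ _ _ _ _ _ _ hq F a b c d => hitS hq F a b c d) (fun _ _ _ F _ _ h => tree F h)
    har R hq hs U hU hB hl

end Pool.Agent.Helper6.EA
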